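import Pool.Agent.H62.PPWreath
import Pool.Agent.H62.PPFree

/-!
A variety of pro-2 groups all of whose free groups of rank at least two contain periodic elements of
arbitrarily large finite order.
-/

namespace Pool.Agent.Results.MP_4a8797_al.UnboundedPeriodicOrders

open Pool.Agent.H62.ProP Filter Topology

/-- the laws -/
def W : Set (FreeGroup ℕ) :=
  {w | ∃ k : ℕ, 2 ≤ k ∧ w = Lval k (FreeGroup.of 0) (FreeGroup.of 1) ^ (2 ^ (k + 4))}

theorem sat_iff (G : Type) [Group G] :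
    Sat W G ↔ ∀ k : ℕ, 2 ≤ k → ∀ x y : G, Lval k x y ^ (2 ^ (k + 4)) = 1 := by
  constructor
  · intro h k hk x y
    have h1 := h _ ⟨k, hk, rfl⟩ (fun n => if n = 0 then x else y)
    rw [map_pow, map_Lval] at h1
    simpa using h1
  · rintro h _ ⟨k, hk, rfl⟩ f
    rw [map_pow, map_Lval]
    exact h k hk _ _

theorem result : ∃ V : ProPVariety 2, ∀ (X : Type) [Nontrivial X],
    (∃ (F : Type) (_ : Group F) (_ : TopologicalSpace F) (e : X → F), IsFreeIn V e) ∧
    (∀ (F : Type) [Group F] [TopologicalSpace F] (e : X → F), IsFreeIn V e →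
      ∀ N : ℕ, ∃ g : F, IsOfFinOrder g ∧ N < orderOf g) := by
  refine ⟨varietyOf 2 W, ?_⟩
  intro X _
  refine ⟨⟨Fr 2 W X, inferInstance, inferInstance, gen 2 W X, gen_isFree⟩, ?_⟩
  intro F _ _ e hfree N
  classical
  set k : ℕ := N + 2 with hk
  have hk2 : 2 ≤ k := by omega
  have hNk : N < 2 ^ k := by
    have h1 : k < 2 ^ k := Nat.lt_two_pow_self
    omega
  obtain ⟨x0, x1, hx⟩ := exists_pair_ne X
  obtain ⟨a, b, hab⟩ := Fk_not hk2
  letI : TopologicalSpace (Fk k) := ⊥
  haveI : DiscreteTopology (Fk k) := ⟨rfl⟩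
  have hmem : (varietyOf 2 W).mem (Fk k) :=
    ⟨IsProP.of_finite (Fk_two_group k), (sat_iff _).2 fun j _ x y => Fk_law (by omega) j x y⟩
  let f : X → Fk k := fun x => if x = x0 then a else if x = x1 then b else 1
  have hf : Tendsto f cofinite (nhds 1) := by
    rw [nhds_discrete, tendsto_pure]
    have h2 : {x : X | ¬ (f x = 1)}.Finite := by
      apply (Set.toFinite ({x0, x1} : Set X)).subset
      intro x hx3
      by_contra hx4
      simp only [Set.mem_insert_iff, Set.mem_singleton_iff, not_or] at hx4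
      apply hx3
      simp only [f]
      rw [if_neg hx4.1, if_neg hx4.2]
    exact h2
  obtain ⟨φ, ⟨_, hφ⟩, _⟩ := hfree.lift (Fk k) hmem f hf
  have hfa : φ (e x0) = a := by rw [hφ]; simp [f]
  have hfb : φ (e x1) = b := by rw [hφ]; simp [f, hx.symm]
  have hF : Sat W F := hfree.mem.2
  set g : F := Lval k (e x0) (e x1) with hg
  have hpow : g ^ (2 ^ (k + 4)) = 1 := (sat_iff F).1 hF k hk2 _ _
  have hφg : φ g = Lval k a b := by rw [hg, map_Lval, hfa, hfb]
  refine ⟨g, isOfFinOrder_iff_pow_eq_one.2 ⟨2 ^ (k + 4), by positivity, hpow⟩, ?_⟩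
  obtain ⟨m, _, hm2⟩ := (Nat.dvd_prime_pow Nat.prime_two).1 (orderOf_dvd_of_pow_eq_one hpow)
  rw [hm2]
  have hmk : k ≤ m := by
    by_contra hlt
    apply hab
    have h1 : g ^ (2 ^ (k - 1)) = 1 := by
      rw [← orderOf_dvd_iff_pow_eq_one, hm2]
      exact Nat.pow_dvd_pow 2 (by omega)
    rw [← hφg, ← map_pow, h1, map_one]
  exact lt_of_lt_of_le hNk (Nat.pow_le_pow_right (by norm_num) hmk)

end Pool.Agent.Results.MP_4a8797_al.UnboundedPeriodicOrders
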